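import Mathlib

set_option autoImplicit false

/-!
A countably categorical Jordan nilring that is not solvable.

The ring is the three-dimensional simple algebra over the field with two elements with basis `e0, e1, e2` and products
`e0 e1 = e2`, `e1 e2 = e0`, `e2 e0 = e1`, `x x = 0`. It is finite, hence countably categorical (this is proved below).
-/

namespace Pool.Agent.Results.MP_bd8d3e_al.JordanNilNotSolvable

open FirstOrder FirstOrder.Language

/-- The ring is Jordan: commutative, and `(x² y) x = x² (y x)`. -/
def IsJordan (R : Type) [NonUnitalNonAssocRing R] : Prop :=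
  (∀ x y : R, x * y = y * x) ∧ ∀ x y : R, ((x * x) * y) * x = (x * x) * (y * x)

/-- The linearised Jordan identity. -/
def LinearizedJordan (R : Type) [NonUnitalNonAssocRing R] : Prop :=
  ∀ x y z t : R, ((x * z) * y) * t + ((z * t) * y) * x + ((t * x) * y) * z =
    (x * z) * (y * t) + (z * t) * (y * x) + (t * x) * (y * z)

/-- Right-normed powers: `rpow x n` is `x ^ (n + 1)`, with `x ^ 1 = x` and `x ^ (n + 1) = x ^ n * x`. -/
def rpow {R : Type} [NonUnitalNonAssocRing R] (x : R) : ℕ → R
  | 0 => x
  | n + 1 => rpow x n * x

/-- Every element has a vanishing power. -/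
def IsNilring (R : Type) [NonUnitalNonAssocRing R] : Prop := ∀ x : R, ∃ n : ℕ, rpow x n = 0

/-- The derived powers: `derived R 0 = R`, and `derived R (k + 1)` is the additive subgroup generated by the products
of two elements of `derived R k`. -/
def derived (R : Type) [NonUnitalNonAssocRing R] : ℕ → AddSubgroup R
  | 0 => ⊤
  | k + 1 => AddSubgroup.closure {z | ∃ a ∈ derived R k, ∃ b ∈ derived R k, z = a * b}

/-- The ring is solvable: some derived power is zero. -/
def IsSolvableRing (R : Type) [NonUnitalNonAssocRing R] : Prop := ∃ n : ℕ, derived R n = ⊥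

/-- The function symbols `0`, `-`, `+`, `*`. -/
inductive RingSym : ℕ → Type
  | zero : RingSym 0
  | neg : RingSym 1
  | add : RingSym 2
  | mul : RingSym 2

/-- The first-order language `{+, -, 0, *}` of rings. -/
def ringLang : FirstOrder.Language.{0, 0} := ⟨RingSym, fun _ => Empty⟩

/-- A ring as a structure for the language `{+, -, 0, *}`. -/
instance ringStructure (R : Type) [NonUnitalNonAssocRing R] : ringLang.Structure R where
  funMap := fun {n} f x => match n, f, x with
    | _, RingSym.zero, _ => 0
    | _, RingSym.neg, x => - x 0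
    | _, RingSym.add, x => x 0 + x 1
    | _, RingSym.mul, x => x 0 * x 1
  RelMap := fun {_} r _ => nomatch r

/-- The complete first-order theory of the ring has exactly one countable model up to isomorphism. -/
def IsCountablyCategorical (R : Type) [NonUnitalNonAssocRing R] : Prop :=
  (∃ (M : Type) (_ : ringLang.Structure M), Countable M ∧ M ⊨ ringLang.completeTheory R) ∧
  ∀ (M N : Type) [ringLang.Structure M] [ringLang.Structure N], Countable M → Countable N →
    M ⊨ ringLang.completeTheory R → N ⊨ ringLang.completeTheory R → Nonempty (M ≃[ringLang] N)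

/-! ### Finite rings are countably categorical -/

section Finite

variable (R : Type) [NonUnitalNonAssocRing R] [Finite R]

/-- the term `0` -/
def tZero (α : Type) : ringLang.Term α := Term.func (L := ringLang) (l := 0) RingSym.zero ![]
/-- the term `- a` -/
def tNeg {α : Type} (a : ringLang.Term α) : ringLang.Term α := Term.func (L := ringLang) (l := 1) RingSym.neg ![a]
/-- the term `a + b` -/
def tAdd {α : Type} (a b : ringLang.Term α) : ringLang.Term α :=
  Term.func (L := ringLang) (l := 2) RingSym.add ![a, b]
/-- the term `a * b` -/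
def tMul {α : Type} (a b : ringLang.Term α) : ringLang.Term α :=
  Term.func (L := ringLang) (l := 2) RingSym.mul ![a, b]

variable {R}

theorem realize_tZero {α M : Type} [ringLang.Structure M] (v : α → M) :
    (tZero α).realize v = Structure.funMap (L := ringLang) (n := 0) RingSym.zero ![] := by
  simp only [tZero, Term.realize]
  congr 1
  ext i
  exact i.elim0

theorem realize_tNeg {α M : Type} [ringLang.Structure M] (v : α → M) (a : ringLang.Term α) :
    (tNeg a).realize v = Structure.funMap (L := ringLang) (n := 1) RingSym.neg ![a.realize v] := by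
  simp only [tNeg, Term.realize]
  congr 1
  ext i
  fin_cases i
  rfl

theorem realize_tAdd {α M : Type} [ringLang.Structure M] (v : α → M) (a b : ringLang.Term α) :
    (tAdd a b).realize v = Structure.funMap (L := ringLang) (n := 2) RingSym.add ![a.realize v, b.realize v] := by
  simp only [tAdd, Term.realize]
  congr 1
  ext i
  fin_cases i <;> rfl

theorem realize_tMul {α M : Type} [ringLang.Structure M] (v : α → M) (a b : ringLang.Term α) :
    (tMul a b).realize v = Structure.funMap (L := ringLang) (n := 2) RingSym.mul ![a.realize v, b.realize v] := by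
  simp only [tMul, Term.realize]
  congr 1
  ext i
  fin_cases i <;> rfl

/-- The diagram of a finite ring, a formula whose free variables are the elements of the ring. -/
noncomputable def diagram (R : Type) [NonUnitalNonAssocRing R] [Finite R] : ringLang.Formula R :=
  ((Term.equal (tZero R) (Term.var (0 : R))) ⊓
    (Formula.iInf fun a : R => Term.equal (tNeg (Term.var a)) (Term.var (-a)))) ⊓
  ((Formula.iInf fun p : R × R => Term.equal (tAdd (Term.var p.1) (Term.var p.2)) (Term.var (p.1 + p.2))) ⊓
    (Formula.iInf fun p : R × R => Term.equal (tMul (Term.var p.1) (Term.var p.2)) (Term.var (p.1 * p.2)))) ⊓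
  (Formula.iInf fun p : {p : R × R // p.1 ≠ p.2} => ∼(Term.equal (Term.var p.1.1) (Term.var p.1.2)))

theorem realize_diagram {M : Type} [ringLang.Structure M] (v : R → M) :
    (diagram R).Realize v ↔
      ((Structure.funMap (L := ringLang) (n := 0) RingSym.zero ![] = v 0 ∧
        ∀ a : R, Structure.funMap (L := ringLang) (n := 1) RingSym.neg ![v a] = v (-a)) ∧
      ((∀ p : R × R, Structure.funMap (L := ringLang) (n := 2) RingSym.add ![v p.1, v p.2] = v (p.1 + p.2)) ∧
        ∀ p : R × R, Structure.funMap (L := ringLang) (n := 2) RingSym.mul ![v p.1, v p.2] = v (p.1 * p.2))) ∧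
      ∀ p : {p : R × R // p.1 ≠ p.2}, ¬ v p.1.1 = v p.1.2 := by
  simp only [diagram, Formula.realize_inf, Formula.realize_iInf, Formula.realize_equal, Formula.realize_not,
    realize_tZero, realize_tNeg, realize_tAdd, realize_tMul, Term.realize_var]

/-- Every model of the complete theory of a finite ring is isomorphic to the ring. -/
theorem iso_of_model {M : Type} [ringLang.Structure M] (hM : M ⊨ ringLang.completeTheory R) :
    Nonempty (R ≃[ringLang] M) := by
  classical
  have hiff : ∀ φ : ringLang.Sentence, R ⊨ φ → M ⊨ φ := fun φ h => hM.realize_of_mem φ h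
  have hneg : ∀ φ : ringLang.Sentence, ¬ (R ⊨ φ) → ¬ (M ⊨ φ) := by
    intro φ h h2
    have h3 : R ⊨ (∼φ : ringLang.Sentence) := by
      simpa [Sentence.Realize, Formula.realize_not] using h
    have h4 := hiff _ h3
    rw [Sentence.Realize, Formula.realize_not] at h4
    exact h4 h2
  -- the existential closure of the diagram
  let φ : ringLang.Sentence := Formula.iExs (α := Empty) R ((diagram R).relabel Sum.inr)
  have hφ : R ⊨ φ := by
    rw [Sentence.Realize, Formula.realize_iExs]
    refine ⟨id, ?_⟩
    rw [Formula.realize_relabel, realize_diagram]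
    refine ⟨⟨⟨rfl, fun _ => rfl⟩, fun _ => rfl, fun _ => rfl⟩, fun p => p.2⟩
  have h2 := hiff φ hφ
  rw [Sentence.Realize, Formula.realize_iExs] at h2
  obtain ⟨v, hv⟩ := h2
  rw [Formula.realize_relabel, realize_diagram] at hv
  obtain ⟨⟨⟨h0, hn⟩, ha, hm⟩, hd⟩ := hv
  simp only [Function.comp_apply, Sum.elim_inr] at h0 hn ha hm hd
  have hinj : Function.Injective v := by
    intro a b hab
    by_contra hne
    exact hd ⟨(a, b), hne⟩ hab
  have hsurj : Function.Surjective v := by
    -- cardinalities agree
    have hcard : ¬ (M ⊨ Sentence.cardGe ringLang (Nat.card R + 1)) := by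
      apply hneg
      rw [Sentence.realize_cardGe, not_le]
      haveI := Fintype.ofFinite R
      rw [Cardinal.mk_fintype, Nat.card_eq_fintype_card]
      exact_mod_cast Nat.lt_succ_self _
    rw [Sentence.realize_cardGe, not_le] at hcard
    have hfin : Finite M := by
      have : Cardinal.mk M < Cardinal.aleph0 := hcard.trans (Cardinal.nat_lt_aleph0 _)
      exact Cardinal.lt_aleph0_iff_finite.mp this
    haveI := Fintype.ofFinite R
    haveI := Fintype.ofFinite M
    have hle : Fintype.card M ≤ Fintype.card R := by
      rw [Cardinal.mk_fintype, Nat.card_eq_fintype_card] at hcard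
      have : Fintype.card M < Fintype.card R + 1 := by exact_mod_cast hcard
      omega
    exact ((Fintype.bijective_iff_injective_and_card v).mpr
      ⟨hinj, le_antisymm (Fintype.card_le_of_injective v hinj) hle⟩).2
  refine ⟨⟨Equiv.ofBijective v ⟨hinj, hsurj⟩, ?_, ?_⟩⟩
  · intro n f x
    cases f with
    | zero =>
      change v 0 = _
      rw [← h0]
      congr 1
      ext i
      exact i.elim0
    | neg =>
      change v (- x 0) = _
      rw [← hn]
      congr 1
      ext i
      fin_cases i
      rfl
    | add =>
      change v (x 0 + x 1) = _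
      rw [← ha (x 0, x 1)]
      congr 1
      ext i
      fin_cases i <;> rfl
    | mul =>
      change v (x 0 * x 1) = _
      rw [← hm (x 0, x 1)]
      congr 1
      ext i
      fin_cases i <;> rfl
  · intro n r
    exact nomatch r

theorem finite_categorical (R : Type) [NonUnitalNonAssocRing R] [Finite R] : IsCountablyCategorical R := by
  refine ⟨⟨R, inferInstance, inferInstance, inferInstance⟩, ?_⟩
  intro M N _ _ _ _ hM hN
  obtain ⟨e⟩ := iso_of_model hM
  obtain ⟨f⟩ := iso_of_model hN
  exact ⟨f.comp e.symm⟩

end Finite

/-- The eight-element ring. -/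
@[ext] structure A : Type where
  a0 : ZMod 2
  a1 : ZMod 2
  a2 : ZMod 2
deriving DecidableEq, Fintype

namespace A

instance : Zero A := ⟨⟨0, 0, 0⟩⟩
instance : Add A := ⟨fun u v => ⟨u.a0 + v.a0, u.a1 + v.a1, u.a2 + v.a2⟩⟩
instance : Neg A := ⟨fun u => ⟨-u.a0, -u.a1, -u.a2⟩⟩
instance : Mul A := ⟨fun u v =>
  ⟨u.a1 * v.a2 - u.a2 * v.a1, u.a2 * v.a0 - u.a0 * v.a2, u.a0 * v.a1 - u.a1 * v.a0⟩⟩

theorem zero_def : (0 : A) = ⟨0, 0, 0⟩ := rfl
theorem add_def (u v : A) : u + v = ⟨u.a0 + v.a0, u.a1 + v.a1, u.a2 + v.a2⟩ := rfl
theorem neg_def (u : A) : -u = ⟨-u.a0, -u.a1, -u.a2⟩ := rfl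
theorem mul_def (u v : A) : u * v =
  ⟨u.a1 * v.a2 - u.a2 * v.a1, u.a2 * v.a0 - u.a0 * v.a2, u.a0 * v.a1 - u.a1 * v.a0⟩ := rfl

instance : NonUnitalNonAssocRing A where
  add_assoc u v w := by simp [add_def, add_assoc]
  zero_add u := by simp [add_def, zero_def]
  add_zero u := by simp [add_def, zero_def]
  add_comm u v := by simp [add_def, add_comm]
  neg_add_cancel u := by ext <;> exact neg_add_cancel _
  nsmul := nsmulRec
  zsmul := zsmulRec
  left_distrib u v w := by ext <;> simp only [add_def, mul_def] <;> ring
  right_distrib u v w := by ext <;> simp only [add_def, mul_def] <;> ring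
  zero_mul u := by ext <;> simp [mul_def, zero_def]
  mul_zero u := by ext <;> simp [mul_def, zero_def]

theorem two (x : ZMod 2) : x + x = 0 := by revert x; decide

theorem add_self (u : A) : u + u = 0 := by
  ext <;> exact two _

theorem mul_self (u : A) : u * u = 0 := by
  ext <;> simp only [mul_def, zero_def] <;> ring

theorem mul_comm' (u v : A) : u * v = v * u := by
  have h := mul_self (u + v)
  rw [mul_add, add_mul, add_mul, mul_self, mul_self, zero_add, add_zero] at h
  have h2 := add_self (v * u)
  have : u * v = v * u + (v * u + u * v) := by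
    rw [← add_assoc, h2, zero_add]
  rw [this, h, add_zero]

theorem isJordan : IsJordan A := by
  refine ⟨mul_comm', fun x y => ?_⟩
  rw [mul_self, zero_mul, zero_mul, zero_mul]

theorem linearized : LinearizedJordan A := by
  intro x y z t
  ext <;> simp only [mul_def, add_def]
  all_goals
    rw [← sub_eq_zero]
    ring_nf

theorem nil : IsNilring A := fun x => ⟨1, mul_self x⟩

theorem derived_top (n : ℕ) : derived A n = ⊤ := by
  induction n with
  | zero => rfl
  | succ n ih =>
    have hm : ∀ a b : A, a * b ∈ derived A (n + 1) := by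
      intro a b
      apply AddSubgroup.subset_closure
      exact ⟨a, by rw [ih]; trivial, b, by rw [ih]; trivial, rfl⟩
    have key : ∀ u : A, u = (⟨0, u.a0, 0⟩ : A) * ⟨0, 0, 1⟩ + (⟨0, 0, u.a1⟩ : A) * ⟨1, 0, 0⟩ +
        (⟨u.a2, 0, 0⟩ : A) * ⟨0, 1, 0⟩ := by
      intro u
      ext <;> simp [mul_def, add_def]
    rw [eq_top_iff]
    intro u _
    rw [key u]
    exact AddSubgroup.add_mem _ (AddSubgroup.add_mem _ (hm _ _) (hm _ _)) (hm _ _)

theorem not_solvable : ¬ IsSolvableRing A := by
  rintro ⟨n, hn⟩
  rw [derived_top] at hn
  have h1 : (⟨1, 0, 0⟩ : A) ∈ (⊥ : AddSubgroup A) := by rw [← hn]; trivial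
  rw [AddSubgroup.mem_bot] at h1
  exact absurd h1 (by decide)

end A

/-- There is a Jordan nilring (in which the linearised Jordan identity holds as well) that is countably categorical
but not solvable. -/
theorem result : ∃ (A : Type) (_ : NonUnitalNonAssocRing A),
    IsJordan A ∧ LinearizedJordan A ∧ IsNilring A ∧ IsCountablyCategorical A ∧ ¬ IsSolvableRing A :=
  ⟨A, inferInstance, A.isJordan, A.linearized, A.nil, finite_categorical A, A.not_solvable⟩

end Pool.Agent.Results.MP_bd8d3e_al.JordanNilNotSolvable
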